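import Pool.Agent.W5h38.TV.Main

/-!
# The strata of a closed subscheme of an affine space
-/

set_option autoImplicit false

open CategoryTheory AlgebraicGeometry MvPolynomial Pool.Agent.Y116.UV Pool.Agent.Z125.UN

namespace Pool.Agent.W5h38.TV

section

variable {R : Type} [CommRing R] {σ : Type}

/-- the piece of a set of equations -/
abbrev PI (I : Set (MvPolynomial σ R)) (w : MvPolynomial σ R) : Type :=
  Pc (fun p : I => (p : MvPolynomial σ R)) w

/-- The piece depends only on the ideal. -/
noncomputable def pcCongr {κ κ' : Type} {G : κ → MvPolynomial σ R} {G' : κ' → MvPolynomial σ R}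
    (w : MvPolynomial σ R) (h : Ideal.span (Set.range G) = Ideal.span (Set.range G')) :
    Pc G w ≃ₐ[R] Pc G' w :=
  pcEquiv (pv G' w)
    (fun k => by rw [pc_aeval]; exact pc_zero _ _ (h ▸ Ideal.subset_span ⟨k, rfl⟩))
    (by rw [pc_aeval]; exact pc_unit _ _)
    (pv G w)
    (fun k => by rw [pc_aeval]; exact pc_zero _ _ (h ▸ Ideal.subset_span ⟨k, rfl⟩))
    (by rw [pc_aeval]; exact pc_unit _ _)
    (fun s => by rw [pcLift_pv]) (fun s => by rw [pcLift_pv])

lemma range_adj {κ : Type} (G : κ → MvPolynomial σ R) (e : MvPolynomial σ R) :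
    Set.range (adj G e) = insert e (Set.range G) := by
  ext p
  constructor
  · rintro ⟨k | k, rfl⟩
    · exact Or.inl rfl
    · exact Or.inr ⟨k, rfl⟩
  · rintro (rfl | ⟨k, rfl⟩)
    · exact ⟨none, rfl⟩
    · exact ⟨some k, rfl⟩

variable {sep : Prop} {P : Sch R → Prop} (hP : Bnd sep P)

include hP

omit hP in
lemma pi_congr {I J : Set (MvPolynomial σ R)} {w w' : MvPolynomial σ R} (h : I = J)
    (hw : w = w') (hI : P (aff R (PI I w))) : P (aff R (PI J w')) := by
  subst h hw
  exact hI

/-- decomposition by the coordinates in `J` -/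
lemma split [Finite σ] [DecidableEq σ] (J : Finset σ) : ∀ (I : Set (MvPolynomial σ R)) (S : Finset σ),
    (∀ T ⊆ J, P (aff R (PI (I ∪ X '' ((J \ T : Finset σ) : Set σ)) (∏ i ∈ S ∪ T, X i)))) →
    Disjoint S J → P (aff R (PI I (∏ i ∈ S, X i))) := by
  induction J using Finset.induction_on with
  | empty =>
    intro I S h _
    exact pi_congr (by simp) (by simp) (h ∅ (by simp))
  | insert j J hj ih =>
    intro I S h hd
    have hjS : j ∉ S := fun h => (Finset.disjoint_left.mp hd) h (Finset.mem_insert_self j J)
    have hdJ : Disjoint S J := Finset.disjoint_of_subset_right (Finset.subset_insert j J) hd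
    refine pc_total hP (e := X j) ?_ ?_
    · have h1 : P (aff R (PI (insert (X j) I) (∏ i ∈ S, X i))) := by
        refine ih _ S (fun T hT => ?_) hdJ
        have hjT : j ∉ T := fun h => hj (hT h)
        refine pi_congr ?_ rfl (h T (hT.trans (Finset.subset_insert j J)))
        have h2 : insert j J \ T = insert j (J \ T) := by
          rw [Finset.insert_sdiff_of_notMem _ hjT]
        rw [h2, Finset.coe_insert, Set.image_insert_eq, Set.union_insert, Set.insert_union]
      refine iso_alg hP.toUni (pcCongr _ ?_) h1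
      rw [range_adj, Subtype.range_coe, Subtype.range_coe]
    · have h1 : P (aff R (PI I (∏ i ∈ insert j S, X i))) := by
        refine ih _ (insert j S) (fun T hT => ?_) ?_
        · have hjT : j ∉ T := fun h => hj (hT h)
          refine pi_congr ?_ ?_ (h (insert j T) (Finset.insert_subset_insert j hT))
          · have h2 : insert j J \ insert j T = J \ T := by
              ext i
              simp only [Finset.mem_sdiff, Finset.mem_insert]
              constructor
              · rintro ⟨h3 | h3, h4⟩
                · exact absurd (Or.inl h3) h4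
                · exact ⟨h3, fun h5 => h4 (Or.inr h5)⟩
              · rintro ⟨h3, h4⟩
                refine ⟨Or.inr h3, ?_⟩
                rintro (h5 | h5)
                · exact hj (h5 ▸ h3)
                · exact h4 h5
            rw [h2]
          · rw [Finset.union_insert, Finset.insert_union]
        · rw [Finset.disjoint_insert_left]
          exact ⟨hj, hdJ⟩
      refine pi_congr rfl ?_ h1
      rw [Finset.prod_insert hjS, mul_comm]

end

section sub

variable {R : Type} [CommRing R] {σ κ : Type} [Fintype σ] [DecidableEq σ] (G : κ → MvPolynomial σ R)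
  (S : Finset σ)

/-- the coordinates in `S`, and zero for the others -/
noncomputable def fS (R : Type) [CommRing R] (S : Finset σ) (i : σ) : MvPolynomial S R :=
  if h : i ∈ S then X ⟨i, h⟩ else 0

/-- the equations on the coordinate subspace -/
noncomputable def GS (k : κ) : MvPolynomial S R := aeval (fS R S) (G k)

lemma hom_GS {M : Type} [AddCommMonoid M] (w : σ → M) {p : MvPolynomial σ R} {d : M}
    (hp : IsWeightedHomogeneous w p d) :
    IsWeightedHomogeneous (fun i : S => w i) (aeval (fS R S) p) d := by
  rw [aeval_def, eval₂_eq']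
  refine (weightedHomogeneousSubmodule R (fun i : S => w i) d).sum_mem fun s hs => ?_
  have h1 := hp (mem_support_iff.mp hs)
  rw [weight_sum] at h1
  have h2 : IsWeightedHomogeneous (fun i : S => w i) (∏ i, fS R S i ^ s i) (∑ i, s i • w i) := by
    refine IsWeightedHomogeneous.prod _ _ _ fun i _ => ?_
    refine IsWeightedHomogeneous.pow ?_ _
    unfold fS
    split_ifs with h
    · exact isWeightedHomogeneous_X R (fun i : S => w i) ⟨i, h⟩
    · exact isWeightedHomogeneous_zero R _ _
  rw [h1] at h2
  have h3 := (isWeightedHomogeneous_C (fun i : S => w i) (coeff s p)).mul h2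
  rw [zero_add] at h3
  exact h3

/-- the equations of a stratum -/
abbrev IS : Set (MvPolynomial σ R) := Set.range G ∪ X '' ((S : Set σ)ᶜ)

lemma pv_zero {w : MvPolynomial σ R} {i : σ} (hi : i ∉ S) :
    pv (fun p : IS G S => (p : MvPolynomial σ R)) w i = 0 := by
  refine pc_zero _ _ (Ideal.subset_span ?_)
  exact ⟨⟨X i, Or.inr ⟨i, hi, rfl⟩⟩, rfl⟩

/-- the values of all coordinates in terms of those in `S` -/
noncomputable def bS (i : σ) : Pc (GS G S) (xx R S) :=
  if h : i ∈ S then pv (GS G S) (xx R S) ⟨i, h⟩ else 0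

lemma aeval_bS (p : MvPolynomial σ R) : aeval (bS G S) p =
    pc (GS G S) (xx R S) (aeval (fS R S) p) := by
  have h : aeval (bS G S) = (pc (GS G S) (xx R S)).comp (aeval (fS R S)) := by
    apply MvPolynomial.algHom_ext
    intro i
    rw [aeval_X, AlgHom.comp_apply, aeval_X, bS, fS]
    split_ifs with h
    · rfl
    · rw [map_zero]
  rw [h]
  rfl

/-- the stratum in the coordinates `S` -/
noncomputable def strE : Pc (GS G S) (xx R S) ≃ₐ[R] PI (IS G S) (∏ i ∈ S, X i) := by
  have hprod : ∀ {C : Type} [CommRing C] [Algebra R C] (b : σ → C),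
      aeval b (∏ i ∈ S, X i : MvPolynomial σ R) = aeval (fun i : S => b i) (xx R S) := by
    intro C _ _ b
    rw [xx, map_prod, map_prod]
    simp only [aeval_X]
    exact (Finset.prod_coe_sort S b).symm
  have key : ∀ p : MvPolynomial σ R,
      aeval (fun i : S => pv (fun p : IS G S => (p : MvPolynomial σ R)) (∏ i ∈ S, X i) i)
        (aeval (fS R S) p) = pc (fun p : IS G S => (p : MvPolynomial σ R)) (∏ i ∈ S, X i) p := by
    intro p
    have h : (aeval (fun i : S => pv (fun p : IS G S => (p : MvPolynomial σ R)) (∏ i ∈ S, X i) i)).comp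
        (aeval (fS R S)) = pc (fun p : IS G S => (p : MvPolynomial σ R)) (∏ i ∈ S, X i) := by
      apply MvPolynomial.algHom_ext
      intro i
      rw [AlgHom.comp_apply, aeval_X, fS]
      split_ifs with h
      · rw [aeval_X]
        rfl
      · rw [map_zero]
        exact (pv_zero G S h).symm
    exact DFunLike.congr_fun h p
  refine pcEquiv (fun i : S => pv (fun p : IS G S => (p : MvPolynomial σ R)) (∏ i ∈ S, X i) i)
    ?_ ?_ (bS G S) ?_ ?_ ?_ ?_
  · intro k
    rw [GS, key]
    exact pc_zero _ _ (Ideal.subset_span ⟨⟨G k, Or.inl ⟨k, rfl⟩⟩, rfl⟩)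
  · rw [← hprod, pc_aeval]
    exact pc_unit _ _
  · rintro ⟨p, hp⟩
    change aeval (bS G S) p = 0
    rcases hp with ⟨k, rfl⟩ | ⟨i, hi, rfl⟩
    · rw [aeval_bS]
      exact pc_rel (GS G S) (xx R S) k
    · have hi' : i ∉ S := hi
      rw [aeval_X, bS, dif_neg hi']
  · rw [hprod]
    have h : (fun i : S => bS G S i) = pv (GS G S) (xx R S) := by
      funext i
      rw [bS, dif_pos i.2]
    rw [h, pc_aeval]
    exact pc_unit _ _
  · intro i
    rw [pcLift_pv, bS, dif_pos i.2]
  · intro i
    unfold bS
    split_ifs with h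
    · rw [pcLift_pv]
    · rw [map_zero]
      exact (pv_zero G S h).symm

end sub

section main

variable {R : Type} [CommRing R] {sep : Prop} {P : Sch R → Prop} (hP : Bnd sep P) {n : ℕ}
  (hn : ∀ (A : Type) [CommRing A] [Algebra R A] [Algebra.FiniteType R A], ringKrullDim A ≤ n →
    P (aff R A))

include hP hn

/-- **Closed subschemes of affine spaces stable under a torus.** -/
theorem p_torus {σ κ : Type} [Fintype σ] [DecidableEq σ] {m : ℕ} (G : κ → MvPolynomial σ R)
    (w : σ → Fin m → ℤ) (hG : ∀ k, ∃ d, IsWeightedHomogeneous w (G k) d)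
    (hd : ∀ S : Finset σ, ringKrullDim (PI (IS G S) (∏ i ∈ S, X i)) ≤
      ((n + rk (fun i : S => w i) : ℕ) : WithBot ℕ∞)) :
    P (aff R (MvPolynomial σ R ⧸ Ideal.span (Set.range G))) := by
  have h1 : P (aff R (PI (Set.range G) (∏ i ∈ (∅ : Finset σ), X i))) := by
    refine split hP Finset.univ _ ∅ (fun T _ => ?_) (Finset.disjoint_empty_left _)
    have h2 : P (aff R (Pc (GS G T) (xx R T))) := by
      refine p_units hP hn m (GS G T) (fun i : T => w i) (fun k => ?_) ?_
      · obtain ⟨d, hd⟩ := hG k
        exact ⟨d, hom_GS T w hd⟩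
      · rw [ringKrullDim_eq_of_ringEquiv (strE G T).toRingEquiv]
        exact hd T
    refine pi_congr ?_ ?_ (iso_alg hP.toUni (strE G T) h2)
    · rw [IS, Finset.coe_sdiff, Finset.coe_univ, Set.compl_eq_univ_sdiff]
    · rw [Finset.empty_union]
  rw [Finset.prod_empty] at h1
  have h3 : P (aff R (Pc G 1)) := iso_alg hP.toUni (pcCongr 1 (by rw [Subtype.range_coe])) h1
  exact iso_alg hP.toUni (oneE G).symm h3

end main

end Pool.Agent.W5h38.TV
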