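import Pool.Agent.Y116.UV.Defs

/-!
# Schemes with an action of a torus of complexity at most `n`: definitions
-/

set_option autoImplicit false

open CategoryTheory AlgebraicGeometry MvPolynomial Pool.Agent.Y116.UV

namespace Pool.Agent.W5h38.TV

variable {k : Type} [CommRing k]

/-- The ring of functions on the stratum `x_i ≠ 0` for `i ∈ S`, `x_i = 0` for `i ∉ S`, of the closed
subscheme `G = 0` of the affine space with the coordinates `x_1, …, x_N`: the localization of
`k[x_1, …, x_N] / (G, x_i (i ∉ S))` at the product of the `x_i`, `i ∈ S`. -/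
abbrev Stratum {N : ℕ} {κ : Type} (G : κ → MvPolynomial (Fin N) k) (S : Finset (Fin N)) : Type :=
  Localization.Away (Ideal.Quotient.mk (Ideal.span (Set.range G ∪ X '' ((S : Set (Fin N))ᶜ)))
    (∏ i ∈ S, X i))

/-- The rank of the weights `w i`, `i ∈ S`. This is the dimension of the orbits of the torus
`t = (t_1, …, t_m)` acting by `(t x)_i = t_1 ^ (w i 1) ⋯ t_m ^ (w i m) x_i` at the points with `x_i ≠ 0`
exactly for `i ∈ S`. -/
noncomputable def orbitDim {N m : ℕ} (w : Fin N → Fin m → ℤ) (S : Finset (Fin N)) : ℕ :=
  Module.finrank ℚ (Submodule.span ℚ {v : Fin m → ℚ | ∃ i ∈ S, ∀ j, v j = (w i j : ℚ)})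

/-- `X` is a closed subscheme of an affine space which is stable under a torus acting diagonally, of
complexity at most `n`: it is given by equations `G l` each of which is homogeneous for the
multidegree with the weights `w i ∈ ℤ ^ m`, and the dimension of each stratum (given by the vanishing
and non-vanishing of the coordinates) is at most `n` plus the dimension of the orbits in this
stratum. -/
def IsTorusScheme (n : ℕ) (X : Sch k) : Prop :=
  ∃ (N m : ℕ) (κ : Type) (G : κ → MvPolynomial (Fin N) k) (w : Fin N → Fin m → ℤ),
    (∀ l, ∃ d : Fin m → ℤ, IsWeightedHomogeneous w (G l) d) ∧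
    (∀ S : Finset (Fin N),
      ringKrullDim (Stratum G S) ≤ ((n + orbitDim w S : ℕ) : WithBot ℕ∞)) ∧
    X = aff k (MvPolynomial (Fin N) k ⧸ Ideal.span (Set.range G))

/-- The smallest class of schemes which contains the closed subschemes of affine spaces stable under
a torus, of complexity at most `n`, is closed under isomorphisms, and contains each one of `X`, `Z`, `U`
if it contains the two others, for closed subschemes `Z` of separated schemes `X` of finite type
with complement `U`. -/
inductive Built (n : ℕ) : Sch k → Prop
  | torus (X : Sch k) : IsTorusScheme n X → Built n X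
  | iso (X Y : Sch k) : FT True X → Nonempty (X ≅ Y) → Built n X → Built n Y
  | total (Z X U : Sch k) (i : Z ⟶ X) (j : U ⟶ X) : FT True X → IsTriple i j → Built n Z →
      Built n U → Built n X
  | opened (Z X U : Sch k) (i : Z ⟶ X) (j : U ⟶ X) : FT True X → IsTriple i j → Built n Z →
      Built n X → Built n U
  | closed (Z X U : Sch k) (i : Z ⟶ X) (j : U ⟶ X) : FT True X → IsTriple i j → Built n X →
      Built n U → Built n Z

end Pool.Agent.W5h38.TV
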