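import Pool.Agent.W5h38.TV.Built

/-!
# Products of schemes of dimension at most `n` and affine spaces
-/

set_option autoImplicit false

open CategoryTheory AlgebraicGeometry MvPolynomial Pool.Agent.Y116.UV Pool.Agent.Z125.UN

namespace Pool.Agent.W5h38.TV

section dim

variable {k : Type} [CommRing k] {N : ℕ} {κ : Type} (G : κ → MvPolynomial (Fin N) k) (r : ℕ)

/-- the relations in more coordinates -/
noncomputable def relp (l : κ) : MvPolynomial (Fin (N + r)) k := rename (Fin.castAdd r) (G l)

/-- the new coordinates in `S` -/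
abbrev Nw (N r : ℕ) (S : Finset (Fin (N + r))) : Type := {j : Fin r // Fin.natAdd N j ∈ S}

variable {r} (S : Finset (Fin (N + r)))

/-- the ideal of the closure of the stratum -/
noncomputable abbrev idS : Ideal (MvPolynomial (Fin (N + r)) k) :=
  Ideal.span (Set.range (relp G r) ∪ X '' ((S : Set (Fin (N + r)))ᶜ))

/-- to the functions on the closure of the stratum -/
noncomputable def inc : (MvPolynomial (Fin N) k ⧸ Ideal.span (Set.range G)) →ₐ[k]
    (MvPolynomial (Fin (N + r)) k ⧸ idS G S) :=
  Ideal.Quotient.liftₐ _ ((Ideal.Quotient.mkₐ k (idS G S)).comp (rename (Fin.castAdd r))) (by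
    have h1 : Ideal.span (Set.range G) ≤ RingHom.ker
        ((Ideal.Quotient.mkₐ k (idS G S)).comp (rename (Fin.castAdd r)) :
          MvPolynomial (Fin N) k →ₐ[k] _) := by
      rw [Ideal.span_le]
      rintro _ ⟨l, rfl⟩
      change Ideal.Quotient.mk (idS G S) (relp G r l) = 0
      exact Ideal.Quotient.eq_zero_iff_mem.mpr (Ideal.subset_span (Or.inl ⟨l, rfl⟩))
    exact fun a ha => h1 ha)

lemma inc_mk (p : MvPolynomial (Fin N) k) : inc G S (Ideal.Quotient.mk _ p) =
    Ideal.Quotient.mk (idS G S) (rename (Fin.castAdd r) p) := rfl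

lemma dim_closure [IsNoetherianRing k] :
    ringKrullDim (MvPolynomial (Fin (N + r)) k ⧸ idS G S) ≤
      ringKrullDim (MvPolynomial (Fin N) k ⧸ Ideal.span (Set.range G)) +
        (Nat.card (Nw N r S) : WithBot ℕ∞) := by
  let f : MvPolynomial (Nw N r S) (MvPolynomial (Fin N) k ⧸ Ideal.span (Set.range G)) →+*
      (MvPolynomial (Fin (N + r)) k ⧸ idS G S) :=
    eval₂Hom (inc G S).toRingHom fun j => Ideal.Quotient.mk _ (X (Fin.natAdd N j.1))
  have hf : Function.Surjective f := by
    intro b
    obtain ⟨p, rfl⟩ := Ideal.Quotient.mk_surjective b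
    change Ideal.Quotient.mk _ p ∈ f.rangeS
    induction p using MvPolynomial.induction_on with
    | C a =>
      refine ⟨C (Ideal.Quotient.mk _ (C a)), ?_⟩
      change eval₂Hom _ _ (C _) = _
      rw [eval₂Hom_C]
      change inc G S (Ideal.Quotient.mk _ (C a)) = _
      rw [inc_mk, rename_C]
    | add p q hp hq =>
      rw [map_add]
      exact add_mem hp hq
    | mul_X p i hp =>
      rw [map_mul]
      refine mul_mem hp ?_
      induction i using Fin.addCases with
      | left i =>
        refine ⟨C (Ideal.Quotient.mk _ (X i)), ?_⟩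
        change eval₂Hom _ _ (C _) = _
        rw [eval₂Hom_C]
        change inc G S (Ideal.Quotient.mk _ (X i)) = _
        rw [inc_mk, rename_X]
      | right j =>
        by_cases hj : Fin.natAdd N j ∈ S
        · refine ⟨X ⟨j, hj⟩, ?_⟩
          change eval₂Hom _ _ (X _) = _
          rw [eval₂Hom_X']
        · refine ⟨0, ?_⟩
          rw [map_zero]
          symm
          exact Ideal.Quotient.eq_zero_iff_mem.mpr
            (Ideal.subset_span (Or.inr ⟨_, by simpa using hj, rfl⟩))
  refine (ringKrullDim_le_of_surjective f hf).trans ?_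
  rw [MvPolynomial.ringKrullDim_of_isNoetherianRing]

/-- the weights: the new coordinates are independent of one another -/
def wt (N r : ℕ) : Fin (N + r) → Fin r → ℤ :=
  Fin.addCases (fun _ => 0) fun j => Pi.single j 1

lemma wt_left (i : Fin N) : wt N r (Fin.castAdd r i) = 0 := by
  rw [wt, Fin.addCases_left]

lemma wt_right (j : Fin r) : wt N r (Fin.natAdd N j) = Pi.single j 1 := by
  rw [wt, Fin.addCases_right]

lemma card_le_orbit : Nat.card (Nw N r S) ≤ orbitDim (wt N r) S := by
  rw [orbitDim]
  let v : Nw N r S → (Fin r → ℚ) := fun j => Pi.single j.1 1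
  have hv : LinearIndependent ℚ v := by
    have h1 := (Pi.basisFun ℚ (Fin r)).linearIndependent
    have h2 := h1.comp (fun j : Nw N r S => j.1) Subtype.val_injective
    convert h2 using 1
    funext j
    simp [v]
  have h1 := finrank_span_eq_card hv
  rw [Nat.card_eq_fintype_card, ← h1]
  refine Submodule.finrank_mono ?_
  rw [Submodule.span_le]
  rintro _ ⟨j, rfl⟩
  refine Submodule.subset_span ⟨_, j.2, fun i => ?_⟩
  rw [wt_right]
  by_cases h : i = j.1
  · subst h
    simp [v]
  · simp [v, h]

lemma relp_hom (l : κ) : ∃ d, IsWeightedHomogeneous (wt N r) (relp G r l) d := by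
  refine ⟨0, ?_⟩
  intro d hd
  obtain ⟨u, rfl, -⟩ := coeff_rename_ne_zero _ _ _ hd
  rw [weight_sum, Fin.sum_univ_add]
  have h1 : ∀ i : Fin N, (Finsupp.mapDomain (Fin.castAdd r) u) (Fin.castAdd r i) •
      wt N r (Fin.castAdd r i) = 0 := by
    intro i
    rw [wt_left, smul_zero]
  have h2 : ∀ j : Fin r, (Finsupp.mapDomain (Fin.castAdd r) u) (Fin.natAdd N j) = 0 := by
    intro j
    refine Finsupp.mapDomain_of_notMem_range _ _ ?_
    rintro ⟨i, hi⟩
    have h3 := congrArg Fin.val hi
    simp at h3
    omega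
  rw [Finset.sum_eq_zero fun i _ => h1 i, Finset.sum_eq_zero fun j _ => by rw [h2, zero_smul],
    add_zero]

theorem torus_poly [IsNoetherianRing k] {n : ℕ}
    (h : ringKrullDim (MvPolynomial (Fin N) k ⧸ Ideal.span (Set.range G)) ≤ n) :
    Built n (aff k (MvPolynomial (Fin (N + r)) k ⧸ Ideal.span (Set.range (relp G r)))) := by
  refine .torus _ ⟨N + r, r, κ, relp G r, wt N r, relp_hom G, fun S => ?_, rfl⟩
  refine (dim_away _).trans ((dim_closure G S).trans ?_)
  push_cast
  refine add_le_add h ?_
  exact_mod_cast card_le_orbit S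

end dim

section iso

variable {k : Type} [CommRing k] {n : ℕ}

lemma built_iso {A B : Type} [CommRing A] [Algebra k A] [CommRing B] [Algebra k B]
    [Algebra.FiniteType k A] (e : A ≃ₐ[k] B) (h : Built n (aff k A)) : Built n (aff k B) :=
  .iso _ _ (ft_aff True) ⟨(affIso e).symm⟩ h

/-- polynomials over an algebra given by generators and relations -/
noncomputable def presE {A : Type} [CommRing A] [Algebra k A] {N : ℕ}
    (f : MvPolynomial (Fin N) k →ₐ[k] A) (hf : Function.Surjective f) (r : ℕ) :
    (MvPolynomial (Fin (N + r)) k ⧸ Ideal.span (Set.range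
      (relp (fun p : RingHom.ker f => (p : MvPolynomial (Fin N) k)) r))) ≃ₐ[k]
      MvPolynomial (Fin r) A := by
  let G : RingHom.ker f → MvPolynomial (Fin N) k := fun p => p.1
  let J : Ideal (MvPolynomial (Fin (N + r)) k) := Ideal.span (Set.range (relp G r))
  let F : MvPolynomial (Fin (N + r)) k →ₐ[k] MvPolynomial (Fin r) A :=
    aeval (Fin.addCases (fun i => C (f (X i))) fun j => X j)
  have hF1 : ∀ i, F (X (Fin.castAdd r i)) = C (f (X i)) := fun i => by
    rw [aeval_X, Fin.addCases_left]
  have hF2 : ∀ j, F (X (Fin.natAdd N j)) = X j := fun j => by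
    rw [aeval_X, Fin.addCases_right]
  have hF : ∀ p : MvPolynomial (Fin N) k, F (rename (Fin.castAdd r) p) = C (f p) := by
    intro p
    have h1 : F.comp (rename (Fin.castAdd r)) =
        (IsScalarTower.toAlgHom k A (MvPolynomial (Fin r) A)).comp f := by
      apply MvPolynomial.algHom_ext
      intro i
      rw [AlgHom.comp_apply, rename_X, hF1]
      rfl
    exact DFunLike.congr_fun h1 p
  let ψ : (MvPolynomial (Fin (N + r)) k ⧸ J) →ₐ[k] MvPolynomial (Fin r) A :=
    Ideal.Quotient.liftₐ J F (by
      have h1 : J ≤ RingHom.ker F := by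
        rw [Ideal.span_le]
        rintro _ ⟨p, rfl⟩
        change F (rename (Fin.castAdd r) p.1) = 0
        rw [hF, (RingHom.mem_ker.mp p.2 : f p.1 = 0), map_zero]
      exact fun a ha => h1 ha)
  have hψ : ∀ p, ψ (Ideal.Quotient.mk J p) = F p := fun p => rfl
  let g0 : (MvPolynomial (Fin N) k ⧸ RingHom.ker f) →ₐ[k] (MvPolynomial (Fin (N + r)) k ⧸ J) :=
    Ideal.Quotient.liftₐ _ ((Ideal.Quotient.mkₐ k J).comp (rename (Fin.castAdd r))) (by
      intro p hp
      change Ideal.Quotient.mk J (relp G r ⟨p, hp⟩) = 0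
      exact Ideal.Quotient.eq_zero_iff_mem.mpr (Ideal.subset_span ⟨_, rfl⟩))
  let e0 := Ideal.quotientKerAlgEquivOfSurjective hf
  let g : A →ₐ[k] (MvPolynomial (Fin (N + r)) k ⧸ J) := g0.comp e0.symm.toAlgHom
  have hg : ∀ p, g (f p) = Ideal.Quotient.mk J (rename (Fin.castAdd r) p) := by
    intro p
    have h1 : e0.symm (f p) = Ideal.Quotient.mk _ p := by
      rw [AlgEquiv.symm_apply_eq]
      rfl
    change g0 (e0.symm (f p)) = _
    rw [h1]
    rfl
  let φ : MvPolynomial (Fin r) A →ₐ[k] (MvPolynomial (Fin (N + r)) k ⧸ J) :=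
    aevalTower g fun j => Ideal.Quotient.mk J (X (Fin.natAdd N j))
  refine AlgEquiv.ofAlgHom ψ φ ?_ ?_
  · refine AlgHom.ext fun q => ?_
    change ψ (φ q) = q
    induction q using MvPolynomial.induction_on with
    | C a =>
      obtain ⟨p, rfl⟩ := hf a
      rw [show φ (C (f p)) = g (f p) from aevalTower_C _ _ _, hg, hψ, hF]
    | add p q hp hq => rw [map_add, map_add, hp, hq]
    | mul_X p j hp =>
      rw [map_mul, map_mul, hp, show φ (X j) = _ from aevalTower_X _ _ _, hψ, hF2]
  · refine AlgHom.ext fun b => ?_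
    obtain ⟨p, rfl⟩ := Ideal.Quotient.mk_surjective b
    change φ (ψ (Ideal.Quotient.mk J p)) = Ideal.Quotient.mk J p
    rw [hψ]
    induction p using MvPolynomial.induction_on with
    | C a =>
      rw [show (C a : MvPolynomial (Fin (N + r)) k) = algebraMap k _ a from rfl, F.commutes,
        φ.commutes]
      rfl
    | add p q hp hq => rw [map_add, map_add, hp, hq, map_add]
    | mul_X p i hp =>
      rw [map_mul, map_mul, hp, map_mul]
      congr 1
      induction i using Fin.addCases with
      | left i =>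
        rw [hF1, show φ (C (f (X i))) = g (f (X i)) from aevalTower_C _ _ _, hg, rename_X]
      | right j => rw [hF2, show φ (X j) = _ from aevalTower_X _ _ _]

theorem built_poly_of_dim [IsNoetherianRing k] {A : Type} [CommRing A] [Algebra k A]
    [Algebra.FiniteType k A] (hA : ringKrullDim A ≤ n) (r : ℕ) :
    Built n (aff k (MvPolynomial (Fin r) A)) := by
  obtain ⟨N, f, hf⟩ := Algebra.FiniteType.iff_quotient_mvPolynomial''.mp
    (inferInstance : Algebra.FiniteType k A)
  refine built_iso (presE f hf r) (torus_poly _ ?_)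
  have h1 : Set.range (fun p : RingHom.ker f => (p : MvPolynomial (Fin N) k)) =
      (RingHom.ker f : Set (MvPolynomial (Fin N) k)) := Subtype.range_coe
  have h2 : Ideal.span (Set.range (fun p : RingHom.ker f => (p : MvPolynomial (Fin N) k))) =
      RingHom.ker f := by
    rw [h1]
    exact Ideal.span_eq _
  have e0 : (MvPolynomial (Fin N) k ⧸ Ideal.span (Set.range
      (fun p : RingHom.ker f => (p : MvPolynomial (Fin N) k)))) ≃ₐ[k] A :=
    (Ideal.quotientEquivAlgOfEq k h2).trans (Ideal.quotientKerAlgEquivOfSurjective hf)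
  rw [ringKrullDim_eq_of_ringEquiv e0.toRingEquiv]
  exact hA

end iso

end Pool.Agent.W5h38.TV
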